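import Pool.Agent.H54.C32.ERows
import Pool.Agent.H54.C32.DSum

open Finset Matrix Pool.Agent.H170R2 Pool.Agent.H54.C32

namespace Pool.Agent.Results.MP_c32163_co.EveryCriterion

/-- The three optimality criteria. -/
inductive Crit
  | A
  | D
  | E

/-- `d` is at least as good as `d'`: for A, the sum of the inverses of the nontrivial eigenvalues of
the information matrix of `d` is at most that of `d'`; for D, the product of the nontrivial
eigenvalues of `d` is at least that of `d'`; for E, some nontrivial eigenvalue of `d'` is at most
every nontrivial eigenvalue of `d` (the least one of `d'` is at most the least one of `d`). -/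
def AtLeastAsGood {v b k : ℕ} (c : Crit) (d d' : Design v b k) : Prop :=
  match c with
  | Crit.A => (d.theta.map fun x => x⁻¹).sum ≤ (d'.theta.map fun x => x⁻¹).sum
  | Crit.D => d'.theta.prod ≤ d.theta.prod
  | Crit.E => ∃ y ∈ d'.theta, ∀ x ∈ d.theta, y ≤ x

/-- The design is (connected, equireplicate and) optimal for the criterion among the connected
equireplicate designs of its class D(v,b,k). -/
def IsOptimal {v b k : ℕ} (c : Crit) (d : Design v b k) : Prop :=
  d.concGraph.Connected ∧ d.Equireplicate ∧
    ∀ d' : Design v b k, d'.concGraph.Connected → d'.Equireplicate → AtLeastAsGood c d d'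

lemma prod_eq (d : Design 32 16 4) (hc : d.concGraph.Connected) (he : d.Equireplicate) :
    d.theta.prod = 2 ^ 16 * Real.exp (lg (nt (blk d))) := by
  rw [theta_nt d he, Multiset.prod_add, Multiset.prod_replicate]
  congr 1
  unfold lg
  rw [Real.exp_multiset_sum, Multiset.map_map]
  congr 1
  apply Multiset.map_congr rfl
  intro x hx
  have h := nt_lt d he hc x hx
  exact (Real.exp_log (by linarith)).symm

lemma opt_A : IsOptimal Crit.A dd := optimal_dd

lemma opt_D : IsOptimal Crit.D dd := by
  refine ⟨conn_dd, equi_dd, fun d' hc he => ?_⟩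
  show d'.theta.prod ≤ dd.theta.prod
  rw [prod_eq d' hc he, prod_eq dd conn_dd equi_dd]
  have h1 := upper_bound d' hc he
  have h4 := four_mem (blk_symm dd) (blk_sum dd equi_dd)
  have hs : ∀ x ∈ nt (blk dd), x < 4 := nt_lt dd equi_dd conn_dd
  have h2 := first_valueD blk_dd h4 hs
  rw [h2]
  have h3 := Real.exp_le_exp.2 h1
  exact mul_le_mul_of_nonneg_left h3 (by positivity)

lemma nt_dd_le {x : ℝ} (hx : x ∈ nt (blk dd)) : x ≤ tau := by
  have hlt := nt_lt dd equi_dd conn_dd x hx
  have hx' : x ∈ (toR (Finals.gm Finals.F1)).charpoly.roots := by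
    rw [← blk_dd]; exact Multiset.mem_of_mem_erase hx
  have hr := first_roots hx' hlt.ne
  by_contra hcon
  push Not at hcon
  have h1 := tau_gt
  have h2 := tau_sq
  have h3 : 0 < x ^ 2 + x - 4 := by nlinarith
  have h4 : 0 < x * (x - 1) := mul_pos (by linarith) (by linarith)
  have h5 : 0 < x * (x - 1) * (x + 2) * (x ^ 2 + x - 4) :=
    mul_pos (mul_pos h4 (by linarith)) h3
  have h6 : x * (x - 1) * (x + 2) * (x ^ 2 + x - 4) = 0 := by linear_combination hr
  linarith

lemma opt_E : IsOptimal Crit.E dd := by
  refine ⟨conn_dd, equi_dd, fun d' hc he => ?_⟩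
  show ∃ y ∈ d'.theta, ∀ x ∈ dd.theta, y ≤ x
  obtain ⟨w, hw, htw⟩ := exists_large (blk_symm d') (blk_sum d' he) (blk_even d') (roots_ge d')
  refine ⟨1 - w / 4, ?_, fun x hx => ?_⟩
  · rw [theta_nt d' he, Multiset.mem_add]
    exact Or.inr (Multiset.mem_map_of_mem _ hw)
  · rw [theta_nt dd equi_dd, Multiset.mem_add] at hx
    rcases hx with hx | hx
    · rw [Multiset.eq_of_mem_replicate hx]
      have := tau_gt
      linarith
    · rw [Multiset.mem_map] at hx
      obtain ⟨u, hu, rfl⟩ := hx
      have := nt_dd_le hu
      linarith

/-- For each of the criteria A, D and E, the variance of a pair in an optimal regular-graph design is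
not an increasing function of its distance: there is a regular-graph design with `32` treatments and
`16` blocks of size `4` that is A-, D- and E-optimal among the connected equireplicate designs of its
class, with two pairs of distinct treatments such that the pair at the smaller distance in the graph
of the design has the strictly larger pairwise variance. -/
theorem result : ∃ d : Design 32 16 4, (∀ c : Crit, IsOptimal c d) ∧ d.IsRegularGraph ∧
    (∃ G : Matrix (Fin 32) (Fin 32) ℝ, d.info * G * d.info = d.info) ∧
    ∃ i j m n : Fin 32, i ≠ j ∧ m ≠ n ∧ d.graph.edist i j < d.graph.edist m n ∧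
      ∀ G : Matrix (Fin 32) (Fin 32) ℝ, d.info * G * d.info = d.info →
        pairVar G m n < pairVar G i j := by
  refine ⟨dd, fun c => ?_, rg_dd, exists_ginv _, 0, 12, 2, 17, by decide, by decide,
    lt_of_le_of_lt near_dd far_dd, fun G hG => ?_⟩
  · cases c
    · exact opt_A
    · exact opt_D
    · exact opt_E
  · have a1 := variance hG y1 1152 (by norm_num) y1_ok
    have a2 := variance hG y2 24 (by norm_num) y2_ok
    rw [show y1 0 = 306 from rfl, show y1 12 = -176 from rfl] at a1
    rw [show y2 2 = 6 from rfl, show y2 17 = -4 from rfl] at a2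
    rw [a1, a2]
    norm_num

end Pool.Agent.Results.MP_c32163_co.EveryCriterion
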